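import Pool.Agent.H197R3.SF.Stmts

set_option autoImplicit false

/-! Task Alg: the algebraic step of the matrix spectral factorization. -/

namespace Pool.Agent.H227R3.SF

open MeasureTheory Filter Topology Set
open scoped Pointwise Matrix ComplexConjugate ComplexOrder MatrixOrder
open Pool.Agent.H197R3.SF

theorem sub_m {E : Set ℝ} (hE : E = ∅ ∨ E = univ) :
    ((E ∩ Iic 0 + E ∩ Iic 0) ∪ (Iic 0 + E ∩ Iic 0) ∪ (Iic 0 + E ∩ Iic 0)) ⊆ E ∩ Iic (0 : ℝ) := by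
  rcases hE with rfl | rfl
  · simp
  · simp only [univ_inter, union_self]
    rintro x ⟨a, ha, b, hb, rfl⟩
    simp only [mem_Iic] at *
    linarith

theorem sub_p {E : Set ℝ} (hE : E = ∅ ∨ E = univ) :
    ((E ∩ Ici 0 + E ∩ Ici 0) ∪ (Ici 0 + E ∩ Ici 0) ∪ (Ici 0 + E ∩ Ici 0)) ⊆ E ∩ Ici (0 : ℝ) := by
  rcases hE with rfl | rfl
  · simp
  · simp only [univ_inter, union_self]
    rintro x ⟨a, ha, b, hb, rfl⟩
    simp only [mem_Ici] at *
    linarith

theorem sub_K : (Iic 0 + Iic 0 : Set ℝ) ⊆ Iic 0 := by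
  rintro x ⟨a, ha, b, hb, rfl⟩
  simp only [mem_Iic] at *
  linarith

theorem sub_K' : (Ici 0 + Ici 0 : Set ℝ) ⊆ Ici 0 := by
  rintro x ⟨a, ha, b, hb, rfl⟩
  simp only [mem_Ici] at *
  linarith

theorem neg_p {E : Set ℝ} (hE : E = ∅ ∨ E = univ) : -(E ∩ Ici 0) ⊆ E ∩ Iic (0 : ℝ) := by
  rcases hE with rfl | rfl
  · simp
  · simp

theorem neg_m {E : Set ℝ} (hE : E = ∅ ∨ E = univ) : -(E ∩ Iic 0) ⊆ E ∩ Ici (0 : ℝ) := by
  rcases hE with rfl | rfl
  · simp
  · simp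

theorem ch_zero (ω : ℝ) : ch ω 0 = 1 := by
  unfold ch
  simp

/-- a function with a causal and an anticausal representation is constant -/
theorem const_of {σ : ℝ} {E E' : Set ℝ} {F : ℝ → ℂ} (hU : UniqStmt) (hσ : 0 < σ)
    (h1 : W σ (E ∩ Iic 0) (Iic 0) F) (h2 : W σ (E' ∩ Ici 0) (Ici 0) F) : ∃ a : ℂ, ∀ ω, F ω = a := by
  obtain ⟨f, c, hf⟩ := h1
  obtain ⟨f', c', hf'⟩ := h2
  obtain ⟨hc, hff⟩ := hU σ _ _ _ _ f c f' c' F hσ hf hf'
  refine ⟨c 0, fun ω => ?_⟩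
  rw [hf.eq ω]
  have hf0 : f =ᵐ[volume] 0 := by
    have h0 : ∀ᵐ t : ℝ, t ≠ 0 := by
      rw [ae_iff]
      simp
    filter_upwards [hff, h0] with t ht ht0
    rcases lt_or_gt_of_ne ht0 with h | h
    · rw [ht]
      exact hf'.fE t (fun h3 => absurd h3.2 (not_le.2 h))
    · exact hf.fE t (fun h3 => absurd h3.2 (not_le.2 h))
  have h3 : ∫ t, f t * ch ω t = 0 := by
    rw [integral_congr_ae (g := fun _ => (0 : ℂ))]
    · simp
    · filter_upwards [hf0] with t ht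
      rw [ht]
      simp
  have h4 : ∑' t : ℝ, c t * ch ω t = c 0 := by
    rw [tsum_eq_single 0]
    · rw [ch_zero, mul_one]
    · intro t ht
      rcases lt_or_gt_of_ne ht with h | h
      · rw [hc t, hf'.cK t (fun h3 => absurd h3 (not_le.2 h)), zero_mul]
      · rw [hf.cK t (fun h3 => absurd h3 (not_le.2 h)), zero_mul]
  rw [h3, h4, zero_add]

/-- a constant with a strictly anticausal representation is zero -/
theorem zero_of {σ : ℝ} {E : Set ℝ} {F : ℝ → ℂ} (hU : UniqStmt) (hσ : 0 < σ)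
    (h1 : W σ E (Iio 0) F) (h2 : W σ ∅ {0} F) : ∀ ω, F ω = 0 := by
  obtain ⟨f, c, hf⟩ := h1
  obtain ⟨f', c', hf'⟩ := h2
  obtain ⟨hc, hff⟩ := hU σ _ _ _ _ f c f' c' F hσ hf hf'
  intro ω
  rw [hf'.eq ω]
  have h3 : ∀ t, f' t = 0 := fun t => hf'.fE t (fun h => h)
  have h4 : ∀ t, c' t = 0 := by
    intro t
    by_cases ht : t = 0
    · subst ht
      rw [← hc 0]
      exact hf.cK 0 (fun h => absurd (mem_Iio.1 h) (lt_irrefl 0))
    · exact hf'.cK t ht
  simp only [h3, h4, zero_mul, integral_zero, tsum_zero, add_zero]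

theorem taskAlg : TaskAlg := by
  intro hM hU n σ c0 E F H N hσ hc0 hE hF hherm hcoer hH hN hFH
  -- classes
  have hone : WM σ (E ∩ Iic 0) (Iic 0) (fun _ => (1 : Matrix (Fin n) (Fin n) ℂ)) :=
    hM.mono n σ σ _ _ _ _ _ hσ le_rfl (empty_subset _) (by
      intro x hx; rw [mem_singleton_iff] at hx; rw [hx]; exact mem_Iic.2 le_rfl) (hM.const n σ 1)
  have hN' : WM σ (E ∩ Iic 0) (Iic 0) N :=
    hM.mono n σ σ _ _ _ _ _ hσ le_rfl subset_rfl (fun x (hx : x < 0) => hx.le) hN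
  have h1N : WM σ (E ∩ Iic 0) (Iic 0) (fun ω => 1 + N ω) := hM.add n σ _ _ _ _ hσ hone hN'
  have h1Nc : WM σ (E ∩ Ici 0) (Ici 0) (fun ω => (1 + N ω)ᴴ) :=
    hM.mono n σ σ _ _ _ _ _ hσ le_rfl (neg_m hE) (by simp) (hM.conjT n σ _ _ _ h1N)
  have hHc : WM σ (E ∩ Iic 0) (Iic 0) (fun ω => (H ω)ᴴ) :=
    hM.mono n σ σ _ _ _ _ _ hσ le_rfl (neg_p hE) (by simp) (hM.conjT n σ _ _ _ hH)
  have hD1 : WM σ (E ∩ Iic 0) (Iic 0) (fun ω => (H ω)ᴴ * (1 + N ω)) :=
    hM.mono n σ σ _ _ _ _ _ hσ le_rfl (sub_m hE) sub_K (hM.mul n σ _ _ _ _ _ _ hσ hHc h1N)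
  have hD2 : WM σ (E ∩ Ici 0) (Ici 0) (fun ω => (1 + N ω)ᴴ * H ω) :=
    hM.mono n σ σ _ _ _ _ _ hσ le_rfl (sub_p hE) sub_K' (hM.mul n σ _ _ _ _ _ _ hσ h1Nc hH)
  have hDe : ∀ ω, (H ω)ᴴ * (1 + N ω) = (1 + N ω)ᴴ * H ω := by
    intro ω
    rw [← hFH ω, Matrix.conjTranspose_mul, (hherm ω).eq, Matrix.mul_assoc]
  have hD2' : WM σ (E ∩ Ici 0) (Ici 0) (fun ω => (H ω)ᴴ * (1 + N ω)) := by
    have : (fun ω => (H ω)ᴴ * (1 + N ω)) = fun ω => (1 + N ω)ᴴ * H ω := funext hDe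
    rw [this]
    exact hD2
  have hconst : ∀ i j, ∃ a : ℂ, ∀ ω, ((H ω)ᴴ * (1 + N ω)) i j = a := fun i j =>
    const_of hU hσ (hD1 i j) (hD2' i j)
  choose D0 hD0 using hconst
  have hD : ∀ ω, (H ω)ᴴ * (1 + N ω) = Matrix.of D0 := by
    intro ω
    ext i j
    exact hD0 i j ω
  have hDF : ∀ ω, (H ω)ᴴ * F ω * H ω = Matrix.of D0 := by
    intro ω
    rw [Matrix.mul_assoc, hFH, hD]
  set D : Matrix (Fin n) (Fin n) ℂ := Matrix.of D0 with hDdef
  -- D is Hermitian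
  have hDh : D.IsHermitian := by
    show Dᴴ = D
    rw [← hDF 0, Matrix.conjTranspose_mul, Matrix.conjTranspose_mul, (hherm 0).eq,
      Matrix.conjTranspose_conjTranspose, Matrix.mul_assoc]
  -- quadratic form
  have hquad : ∀ (ω : ℝ) (v : Fin n → ℂ), star v ⬝ᵥ D.mulVec v =
      star ((H ω).mulVec v) ⬝ᵥ (F ω).mulVec ((H ω).mulVec v) := by
    intro ω v
    rw [← hDF ω, ← Matrix.mulVec_mulVec, ← Matrix.mulVec_mulVec, Matrix.dotProduct_mulVec,
      Matrix.vecMul_conjTranspose, star_star]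
  have hpsd : D.PosSemidef := by
    refine Matrix.PosSemidef.of_dotProduct_mulVec_nonneg hDh (fun v => ?_)
    have h1 : 0 ≤ (star v ⬝ᵥ D.mulVec v).re := by
      rw [hquad 0 v]
      refine le_trans ?_ (hcoer 0 ((H 0).mulVec v))
      positivity
    have h2 : (star v ⬝ᵥ D.mulVec v).im = 0 := hDh.im_star_dotProduct_mulVec_self v
    rw [Complex.le_def]
    exact ⟨h1, h2.symm⟩
  -- D is injective
  have hinj : ∀ v : Fin n → ℂ, D.mulVec v = 0 → v = 0 := by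
    intro v hv
    have hHv : ∀ ω, (H ω).mulVec v = 0 := by
      intro ω
      have h1 := hcoer ω ((H ω).mulVec v)
      rw [← hquad ω v, hv, dotProduct_zero, Complex.zero_re] at h1
      have h2 : ∑ i, ‖(H ω).mulVec v i‖ ^ 2 = 0 := by
        refine le_antisymm ?_ (Finset.sum_nonneg (fun i _ => by positivity))
        by_contra hcon
        push Not at hcon
        have := mul_pos hc0 hcon
        linarith
      funext i
      have h3 := (Finset.sum_eq_zero_iff_of_nonneg (fun i _ => by positivity)).1 h2 i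
        (Finset.mem_univ i)
      simpa using h3
    have hNv : ∀ ω, (1 + N ω).mulVec v = 0 := by
      intro ω
      rw [← hFH ω, ← Matrix.mulVec_mulVec, hHv ω, Matrix.mulVec_zero]
    let A : Matrix (Fin n) (Fin n) ℂ := Matrix.of fun i _ => v i
    have hNA : ∀ ω, N ω * A = -A := by
      intro ω
      have h1 : (1 + N ω) * A = 0 := by
        ext i j
        have h2 := congrFun (hNv ω) i
        rw [Matrix.mul_apply]
        exact h2
      rw [Matrix.add_mul, Matrix.one_mul] at h1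
      exact eq_neg_of_add_eq_zero_right h1
    have hW1 : WM σ univ (Iio 0) (fun ω => N ω * A) :=
      hM.mono n σ σ _ _ _ _ _ hσ le_rfl (subset_univ _) (by
        rintro x ⟨a, ha, b, hb, rfl⟩
        simp only [mem_Iio, mem_singleton_iff] at *
        linarith) (hM.mul n σ _ _ _ _ _ _ hσ hN (hM.const n σ A))
    have hW2 : WM σ ∅ {0} (fun ω => N ω * A) := by
      have : (fun ω => N ω * A) = fun _ => -A := funext hNA
      rw [this]
      exact hM.const n σ (-A)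
    funext i
    have h1 : (N 0 * A) i i = 0 := zero_of hU hσ (hW1 i i) (hW2 i i) 0
    have h2 : (N 0 * A) i i = -(v i) := by
      rw [hNA 0]; rfl
    rw [h2] at h1
    exact neg_eq_zero.1 h1
  have hdet : D.det ≠ 0 := by
    intro h0
    obtain ⟨v, hv, hv'⟩ := Matrix.exists_mulVec_eq_zero_iff.2 h0
    exact hv (hinj v hv')
  obtain ⟨B, hB⟩ := CStarAlgebra.nonneg_iff_eq_star_mul_self.mp hpsd.nonneg
  have hB' : D = Bᴴ * B := hB
  have hBdet : IsUnit B.det := by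
    rw [isUnit_iff_ne_zero]
    intro h0
    apply hdet
    rw [hB', Matrix.det_mul, h0, mul_zero]
  have hDunit : IsUnit D.det := isUnit_iff_ne_zero.2 hdet
  -- the inverse of H
  let K : ℝ → Matrix (Fin n) (Fin n) ℂ := fun ω => D⁻¹ * (1 + N ω)ᴴ
  have hKH : ∀ ω, K ω * H ω = 1 := by
    intro ω
    show D⁻¹ * (1 + N ω)ᴴ * H ω = 1
    rw [Matrix.mul_assoc, ← hDe, hD, Matrix.nonsing_inv_mul _ hDunit]
  have hHK : ∀ ω, H ω * K ω = 1 := fun ω => mul_eq_one_comm.1 (hKH ω)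
  have hRinv : ∀ ω, (B * K ω) * (H ω * B⁻¹) = 1 := by
    intro ω
    rw [Matrix.mul_assoc, ← Matrix.mul_assoc (K ω), hKH, Matrix.one_mul,
      Matrix.mul_nonsing_inv _ hBdet]
  refine ⟨fun ω => B * K ω, fun ω => ?_, fun ω => ?_, ?_, ?_⟩
  · exact isUnit_iff_exists_inv.2 ⟨_, hRinv ω⟩
  · have h1 : (B * K ω)ᴴ * (B * K ω) = (K ω)ᴴ * D * K ω := by
      rw [Matrix.conjTranspose_mul, hB']
      simp only [Matrix.mul_assoc]
    have h2 : (K ω)ᴴ * D * K ω = (H ω * K ω)ᴴ * F ω * (H ω * K ω) := by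
      rw [← hDF ω, Matrix.conjTranspose_mul (H ω) (K ω)]
      simp only [Matrix.mul_assoc]
    rw [h1, h2, hHK, Matrix.conjTranspose_one, Matrix.one_mul, Matrix.mul_one]
  · have h1 := hM.mul n σ _ _ _ _ _ _ hσ (hM.const n σ (B * D⁻¹)) h1Nc
    have h2 : (fun ω => B * K ω) = fun ω => B * D⁻¹ * (1 + N ω)ᴴ := by
      funext ω
      show B * (D⁻¹ * (1 + N ω)ᴴ) = _
      rw [Matrix.mul_assoc]
    rw [h2]
    refine hM.mono n σ σ _ _ _ _ _ hσ le_rfl ?_ ?_ h1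
    · rintro x ((⟨a, ha, b, hb, rfl⟩ | ⟨a, ha, b, hb, rfl⟩) | ⟨a, ha, b, hb, rfl⟩)
      · exact absurd ha (notMem_empty _)
      · rw [mem_singleton_iff] at ha
        subst ha
        simpa using hb
      · exact absurd hb (notMem_empty _)
    · rintro x ⟨a, ha, b, hb, rfl⟩
      rw [mem_singleton_iff] at ha
      subst ha
      simpa using hb
  · have h0 : (fun ω => (B * K ω)⁻¹) = fun ω => H ω * B⁻¹ := by
      funext ω
      exact Matrix.inv_eq_right_inv (hRinv ω)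
    rw [h0]
    have h1 := hM.mul n σ _ _ _ _ _ _ hσ hH (hM.const n σ B⁻¹)
    refine hM.mono n σ σ _ _ _ _ _ hσ le_rfl ?_ ?_ h1
    · rintro x ((⟨a, ha, b, hb, rfl⟩ | ⟨a, ha, b, hb, rfl⟩) | ⟨a, ha, b, hb, rfl⟩)
      · exact absurd hb (notMem_empty _)
      · exact absurd hb (notMem_empty _)
      · rw [mem_singleton_iff] at ha
        subst ha
        simpa using hb
    · rintro x ⟨a, ha, b, hb, rfl⟩
      rw [mem_singleton_iff] at hb
      subst hb
      simpa using ha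

end Pool.Agent.H227R3.SF
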